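import Pool.Agent.H39.Noise.Cor

/-!
# From the core inequality to the flow, Kleitman's conjecture and Chvatal's conjecture
-/

set_option autoImplicit false
set_option linter.unusedSectionVars false

open Finset

namespace Pool.Agent.H12.CH

open Pool.Agent.H60.Flow Pool.Agent.H39.Noise

variable {n : ℕ}

/-- The core inequality. -/
def Core (n : ℕ) : Prop := ∀ (v : Finset (Fin n) → ℝ), Monotone v → ∀ (I : Finset (Finset (Fin n))),
  (∀ A ∈ I, ∀ B, B ⊆ A → B ∈ I) →
    ∑ B ∈ I, (max (v B) 0) ^ 2 + ∑ B ∈ I, (max (- v Bᶜ) 0) ^ 2 ≤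
      ∑ T, fw v T ^ 2 * ((I.filter (fun B => symmDiff B T ∈ I)).card : ℝ)

theorem pair_card (I : Finset (Finset (Fin n))) {T : Finset (Fin n)} {i : Fin n} (hi : i ∈ T) :
    (I.filter (fun B => symmDiff B T ∈ I)).card ≤ 2 * (I.filter (fun B => i ∈ B)).card := by
  set P := I.filter (fun B => symmDiff B T ∈ I) with hP
  have h0 := Finset.card_filter_add_card_filter_not (s := P) (fun B => i ∈ B)
  have h1 : (P.filter (fun B => i ∈ B)).card ≤ (I.filter (fun B => i ∈ B)).card := by
    apply Finset.card_le_card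
    intro B hB
    simp only [hP, Finset.mem_filter] at hB ⊢
    exact ⟨hB.1.1, hB.2⟩
  have h2 : (P.filter (fun B => ¬ i ∈ B)).card ≤ (I.filter (fun B => i ∈ B)).card := by
    refine Finset.card_le_card_of_injOn (fun B => symmDiff B T) ?_ ?_
    · intro B hB
      simp only [hP, Finset.coe_filter, Finset.mem_filter, Set.mem_ofPred_eq] at hB ⊢
      exact ⟨hB.1.2, Finset.mem_symmDiff.2 (Or.inr ⟨hi, hB.2⟩)⟩
    · intro B _ C _ h
      exact symmDiff_left_injective T h
  omega

/-- Flows from inequalities over the decreasing families. -/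
theorem flows_of_down {g h : Finset (Fin n) → ℝ} (hg : ∀ A, 0 ≤ g A) (hh : ∀ A, 0 ≤ h A)
    (htot : ∑ A, g A = ∑ A, h A)
    (H : ∀ I : Finset (Finset (Fin n)), (∀ A ∈ I, ∀ B, B ⊆ A → B ∈ I) → ∑ A ∈ I, h A ≤ ∑ A ∈ I, g A) :
    Flows g h := by
  have key : ∀ K : Finset (Fin n) → ℝ, (∀ A, 0 ≤ K A) → Monotone K → ∑ A, K A * (g A - h A) ≤ 0 := by
    refine layer_induction (P := fun K => Monotone K → ∑ A, K A * (g A - h A) ≤ 0) ?_ ?_
    · intro _; simp
    · intro f hf t ht hmin _ hP hmon
      have hf0 : ∀ A B : Finset (Fin n), A ≤ B → f B = 0 → f A = 0 := fun A B hAB h0 =>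
        le_antisymm (h0 ▸ hmon hAB) (hf A)
      have h1 : Monotone (fun x => if f x = 0 then 0 else f x - t) := by
        intro A B hAB
        show (if f A = 0 then 0 else f A - t) ≤ (if f B = 0 then 0 else f B - t)
        by_cases hB : f B = 0
        · simp [hf0 A B hAB hB, hB]
        · by_cases hA : f A = 0
          · simp only [hA, if_true, hB, if_false]
            have := hmin B hB
            linarith
          · simp only [hA, hB, if_false]
            have := hmon hAB
            linarith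
      have h2 := hP h1
      have h3 := H (univ.filter (fun A => f A = 0)) (fun A hA B hBA => by
        simp only [Finset.mem_filter, Finset.mem_univ, true_and] at hA ⊢
        exact hf0 B A hBA hA)
      have h4 : ∀ A, f A * (g A - h A) = t * (g A - h A) - t * (if f A = 0 then g A - h A else 0) +
          (if f A = 0 then 0 else f A - t) * (g A - h A) := by
        intro A
        by_cases hA : f A = 0
        · simp [hA]
        · simp only [hA, if_false]; ring
      simp only [h4]
      rw [Finset.sum_add_distrib, Finset.sum_sub_distrib, ← Finset.mul_sum, ← Finset.mul_sum,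
        ← Finset.sum_filter, Finset.sum_sub_distrib, Finset.sum_sub_distrib, htot]
      have h5 : 0 ≤ t * (∑ A ∈ univ.filter (fun A => f A = 0), g A - ∑ A ∈ univ.filter (fun A => f A = 0), h A) :=
        mul_nonneg ht.le (sub_nonneg.2 h3)
      simp only [sub_self, mul_zero]
      linarith
  refine flows_of_le hg hh fun K hK => ?_
  have h1 := key (fun A => K A - K ∅) (fun A => sub_nonneg.2 (hK (Finset.empty_subset A)))
    (fun A B hAB => sub_le_sub_right (hK hAB) _)
  have h2 : ∀ A, (K A - K ∅) * (g A - h A) = (K A * g A - K A * h A) - K ∅ * (g A - h A) := fun A => by ring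
  simp only [h2] at h1
  rw [Finset.sum_sub_distrib, Finset.sum_sub_distrib, ← Finset.mul_sum, Finset.sum_sub_distrib, htot] at h1
  simp only [sub_self, mul_zero, sub_zero] at h1
  linarith

theorem sum_star (L : Fin n → ℝ) (I : Finset (Finset (Fin n))) :
    ∑ A ∈ I, ∑ i ∈ A, L i = ∑ i, L i * ((I.filter (fun B => i ∈ B)).card : ℝ) := by
  have h1 : ∀ A : Finset (Fin n), ∑ i ∈ A, L i = ∑ i, if i ∈ A then L i else 0 := by
    intro A; simp
  simp only [h1]
  rw [Finset.sum_comm]
  refine Finset.sum_congr rfl fun i _ => ?_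
  rw [← Finset.sum_filter, Finset.sum_const, nsmul_eq_mul, mul_comm]

theorem hat_sq_eq (f : Finset (Fin n) → ℝ) : ∑ T, fw f T ^ 2 = (∑ A, f A ^ 2) / 2 ^ n := by
  simp only [fw_sq]
  rw [parseval]
  unfold av
  rw [Fintype.card_fin]

/-- The flow with arbitrary weights. -/
theorem flow_weights (hc : Core n) (f : Finset (Fin n) → ℝ) (hf : Monotone f) (ha : Antip f)
    (w : Finset (Fin n) → Fin n → ℝ) (hw0 : ∀ S i, 0 ≤ w S i) (hws : ∀ S i, i ∉ S → w S i = 0)
    (hwf : ∀ S, ∑ i, w S i = fw f S ^ 2) :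
    Flows (fun A => ∑ i ∈ A, ∑ S, w S i) (sqp f) := by
  have hL0 : ∀ i, 0 ≤ ∑ S, w S i := fun i => Finset.sum_nonneg fun S _ => hw0 S i
  have hsq : ∀ A, sqp f A + sqp f Aᶜ = f A ^ 2 := by
    intro A
    unfold sqp
    rw [ha A]
    rcases le_total 0 (f A) with h | h
    · rw [max_eq_left h, max_eq_right (by linarith)]; ring
    · rw [max_eq_right h, max_eq_left (by linarith)]; ring
  refine flows_of_down (fun A => Finset.sum_nonneg fun i _ => hL0 i) (fun A => sq_nonneg _) ?_ ?_
  · -- the totals
    have hcomp : ∀ g : Finset (Fin n) → ℝ, ∑ A : Finset (Fin n), g Aᶜ = ∑ A, g A := fun g =>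
      Equiv.sum_comp (Equiv.mk (fun A : Finset (Fin n) => Aᶜ) (fun A => Aᶜ) (fun A => compl_compl A)
        (fun A => compl_compl A)) g
    have e1 : ∑ A : Finset (Fin n), (∑ i ∈ A, ∑ S, w S i + ∑ i ∈ Aᶜ, ∑ S, w S i) = ∑ A, f A ^ 2 := by
      have : ∀ A : Finset (Fin n), (∑ i ∈ A, ∑ S, w S i + ∑ i ∈ Aᶜ, ∑ S, w S i) = (∑ A, f A ^ 2) / 2 ^ n := by
        intro A
        rw [Finset.sum_add_sum_compl, Finset.sum_comm, ← hat_sq_eq]
        exact Finset.sum_congr rfl fun S _ => hwf S
      simp only [this]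
      rw [Finset.sum_const, Finset.card_univ, Fintype.card_finset, Fintype.card_fin, nsmul_eq_mul]
      push_cast
      field_simp
    have e2 : ∑ A : Finset (Fin n), (sqp f A + sqp f Aᶜ) = ∑ A, f A ^ 2 :=
      Finset.sum_congr rfl fun A _ => hsq A
    rw [Finset.sum_add_distrib, hcomp (fun A => ∑ i ∈ A, ∑ S, w S i)] at e1
    rw [Finset.sum_add_distrib, hcomp (sqp f)] at e2
    linarith
  · intro I hI
    have h1 := hc f hf I hI
    have h2 : ∀ B, (max (- f Bᶜ) 0) ^ 2 = sqp f B := by
      intro B; unfold sqp; rw [ha B, neg_neg]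
    have h3 : ∀ B, (max (f B) 0) ^ 2 = sqp f B := fun B => rfl
    simp only [h2, h3] at h1
    have h4 : ∑ T, fw f T ^ 2 * ((I.filter (fun B => symmDiff B T ∈ I)).card : ℝ) ≤
        ∑ T, ∑ i, w T i * (2 * ((I.filter (fun B => i ∈ B)).card : ℝ)) := by
      refine Finset.sum_le_sum fun T _ => ?_
      rw [← hwf T, Finset.sum_mul]
      refine Finset.sum_le_sum fun i _ => ?_
      by_cases hi : i ∈ T
      · refine mul_le_mul_of_nonneg_left ?_ (hw0 T i)
        exact_mod_cast pair_card I hi
      · rw [hws T i hi, zero_mul, zero_mul]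
    rw [Finset.sum_comm] at h4
    have h5 : ∑ i, ∑ T, w T i * (2 * ((I.filter (fun B => i ∈ B)).card : ℝ)) =
        2 * ∑ A ∈ I, ∑ i ∈ A, ∑ S, w S i := by
      rw [sum_star, Finset.mul_sum]
      refine Finset.sum_congr rfl fun i _ => ?_
      rw [← Finset.sum_mul]; ring
    rw [h5] at h4
    linarith

/-- **Q1.** -/
theorem flow_q1 (hc : Core n) (f : Finset (Fin n) → ℝ) (hf : Monotone f) (ha : Antip f) :
    Flows (til f) (sqp f) := by
  have h0 : fw f ∅ ^ 2 = 0 := by
    rw [fw_sq, hat_odd ha (T := ∅) (by simp)]; norm_num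
  have h := flow_weights hc f hf ha (fun S i => if S.max = (i : WithBot (Fin n)) then fw f S ^ 2 else 0)
    (fun S i => by split_ifs; exacts [sq_nonneg _, le_rfl])
    (fun S i hi => by
      by_cases hm : S.max = (i : WithBot (Fin n))
      · exact absurd (Finset.mem_of_max hm) hi
      · simp [hm])
    (fun S => by
      by_cases hS : S.Nonempty
      · have hm : ∀ i : Fin n, S.max = (i : WithBot (Fin n)) ↔ S.max' hS = i := by
          intro i
          rw [← Finset.coe_max' hS]
          exact WithBot.coe_inj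
        simp only [hm]
        simp
      · rw [Finset.not_nonempty_iff_eq_empty.1 hS, h0]
        simp)
  have h1 : (fun A : Finset (Fin n) => ∑ i ∈ A, ∑ S : Finset (Fin n),
      if S.max = (i : WithBot (Fin n)) then fw f S ^ 2 else 0) = til f := by
    funext A
    unfold til lam
    exact Finset.sum_congr rfl fun i _ => (Finset.sum_filter _ _).symm
  rw [h1] at h
  exact h

end Pool.Agent.H12.CH
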