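import Pool.Agent.H12.CH.Asm

/-!
# Kleitman's conjecture and Chvatal's conjecture from the core inequality
-/

set_option autoImplicit false
set_option linter.unusedSectionVars false

open Finset

namespace Pool.Agent.H12.CH

open Pool.Agent.H60.Flow Pool.Agent.H39.Noise

variable {n : ℕ}

/-- The sign function of a maximal intersecting family. -/
theorem sign_fun (hn : 0 < n) {t : Finset (Finset (Fin n))} (ht : ∀ A ∈ t, ∀ B ∈ t, (A ∩ B).Nonempty)
    (hc : 2 * t.card = 2 ^ n) :
    Monotone (fun A : Finset (Fin n) => if A ∈ t then (1 : ℝ) else -1) ∧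
    Antip (fun A : Finset (Fin n) => if A ∈ t then (1 : ℝ) else -1) ∧
    sqp (fun A : Finset (Fin n) => if A ∈ t then (1 : ℝ) else -1) = (fun A => if A ∈ t then 1 else 0) ∧
    ∑ i, lam (fun A : Finset (Fin n) => if A ∈ t then (1 : ℝ) else -1) i = 1 := by
  have hti : (t : Set (Finset (Fin n))).Intersecting := by
    intro A hA B hB hd
    have := ht A hA B hB
    rw [Finset.disjoint_iff_inter_eq_empty.1 hd] at this
    simp at this
  have hc' : 2 * t.card = Fintype.card (Finset (Fin n)) := by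
    rw [hc, Fintype.card_finset, Fintype.card_fin]
  have : Nonempty (Fin n) := ⟨⟨0, hn⟩⟩
  have hup : IsUpperSet (t : Set (Finset (Fin n))) :=
    hti.isUpperSet' (hti.is_max_iff_card_eq.2 hc')
  have hcm := compl_mem_iff ht hc
  set f : Finset (Fin n) → ℝ := fun A => if A ∈ t then 1 else -1 with hf
  have hfm : Monotone f := by
    intro A B hAB
    simp only [hf]
    by_cases hA : A ∈ t
    · have hB : B ∈ t := hup hAB hA
      simp [hA, hB]
    · simp only [hA, if_false]
      split_ifs <;> norm_num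
  have hfa : Antip f := by
    intro A
    simp only [hf]
    by_cases hA : A ∈ t
    · have : Aᶜ ∉ t := fun h => (hcm A).1 h hA
      simp [hA, this]
    · have : Aᶜ ∈ t := (hcm A).2 hA
      simp [hA, this]
  refine ⟨hfm, hfa, ?_, ?_⟩
  · funext A
    unfold sqp
    simp only [hf]
    split_ifs <;> norm_num
  · rw [sum_lam]
    have e1 : av f = 0 := by
      have := hat_odd hfa (T := ∅) (by simp)
      rwa [hat_empty] at this
    have e2 : av (fun A => f A ^ 2) = 1 := by
      have : ∀ A, f A ^ 2 = 1 := by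
        intro A
        simp only [hf]
        split_ifs <;> norm_num
      rw [av_congr this, av_const]
    rw [e1, e2]; norm_num

/-- **Kleitman's conjecture.** -/
theorem kleitman (hcore : Core n) (hn : 0 < n) (F : Finset (Finset (Fin n)))
    (hF : ∀ A ∈ F, ∀ B ∈ F, (A ∩ B).Nonempty)
    (hmax : ∀ G : Finset (Finset (Fin n)), F ⊆ G → (∀ A ∈ G, ∀ B ∈ G, (A ∩ B).Nonempty) → G = F) :
    ∃ c : Fin n → ℝ, (∀ i, 0 ≤ c i) ∧ ∑ i, c i = 1 ∧
      Flows (fun A => ∑ i ∈ A, c i) (fun A => if A ∈ F then 1 else 0) := by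
  have hFi : (F : Set (Finset (Fin n))).Intersecting := by
    intro A hA B hB hd
    have := hF A hA B hB
    rw [Finset.disjoint_iff_inter_eq_empty.1 hd] at this
    simp at this
  have : Nonempty (Fin n) := ⟨⟨0, hn⟩⟩
  obtain ⟨t, hFt, hc, hti⟩ := hFi.exists_card_eq
  have ht : ∀ A ∈ t, ∀ B ∈ t, (A ∩ B).Nonempty := by
    intro A hA B hB
    have := hti hA hB
    rw [Finset.disjoint_iff_inter_eq_empty] at this
    exact Finset.nonempty_iff_ne_empty.2 this
  have htF := hmax t hFt ht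
  subst htF
  have hc' : 2 * t.card = 2 ^ n := by
    rw [hc, Fintype.card_finset, Fintype.card_fin]
  obtain ⟨h1, h2, h3, h4⟩ := sign_fun hn ht hc'
  refine ⟨_, fun i => lam_nonneg _ i, h4, ?_⟩
  have h5 := flow_q1 hcore _ h1 h2
  rw [h3] at h5
  exact h5

/-- **The functional form of Chvatal's conjecture.** -/
theorem chvatal_fun (hcore : Core n) (hn : 0 < n) (g : Finset (Fin n) → ℝ) (hg0 : ∀ A, 0 ≤ g A)
    (hg : Antitone g) : ∃ i : Fin n, ∀ F : Finset (Finset (Fin n)), (∀ A ∈ F, ∀ B ∈ F, (A ∩ B).Nonempty) →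
      ∑ A ∈ F, g A ≤ ∑ A ∈ univ.filter (fun A : Finset (Fin n) => i ∈ A), g A := by
  have hne : Nonempty (Fin n) := ⟨⟨0, hn⟩⟩
  obtain ⟨i, -, hi⟩ := Finset.exists_max_image (univ : Finset (Fin n))
    (fun i => ∑ A ∈ univ.filter (fun A : Finset (Fin n) => i ∈ A), g A) Finset.univ_nonempty
  refine ⟨i, fun F hF => ?_⟩
  have hFi : (F : Set (Finset (Fin n))).Intersecting := by
    intro A hA B hB hd
    have := hF A hA B hB
    rw [Finset.disjoint_iff_inter_eq_empty.1 hd] at this
    simp at this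
  obtain ⟨t, hFt, hc, hti⟩ := hFi.exists_card_eq
  have ht : ∀ A ∈ t, ∀ B ∈ t, (A ∩ B).Nonempty := by
    intro A hA B hB
    have := hti hA hB
    rw [Finset.disjoint_iff_inter_eq_empty] at this
    exact Finset.nonempty_iff_ne_empty.2 this
  have hc' : 2 * t.card = 2 ^ n := by
    rw [hc, Fintype.card_finset, Fintype.card_fin]
  obtain ⟨h1, h2, h3, h4⟩ := sign_fun hn ht hc'
  have h5 := flow_q1 hcore _ h1 h2
  rw [h3] at h5
  have h6 := sum_mul_le_of_flows h5 (K := fun A => - g A) (fun A B hAB => neg_le_neg (hg hAB))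
  simp only [neg_mul, Finset.sum_neg_distrib, neg_le_neg_iff] at h6
  rw [sum_mul_til] at h6
  have h7 : ∑ A, g A * (if A ∈ t then (1 : ℝ) else 0) = ∑ A ∈ t, g A := by
    simp
  rw [h7] at h6
  have h8 : ∑ A ∈ F, g A ≤ ∑ A ∈ t, g A :=
    Finset.sum_le_sum_of_subset_of_nonneg hFt fun A _ _ => hg0 A
  have h9 : ∑ j, lam (fun A : Finset (Fin n) => if A ∈ t then (1 : ℝ) else -1) j *
      ∑ A ∈ univ.filter (fun A : Finset (Fin n) => j ∈ A), g A ≤
      ∑ j, lam (fun A : Finset (Fin n) => if A ∈ t then (1 : ℝ) else -1) j *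
        ∑ A ∈ univ.filter (fun A : Finset (Fin n) => i ∈ A), g A :=
    Finset.sum_le_sum fun j _ => mul_le_mul_of_nonneg_left (hi j (Finset.mem_univ j)) (lam_nonneg _ j)
  rw [← Finset.sum_mul, h4, one_mul] at h9
  linarith

/-- **Chvatal's conjecture.** -/
theorem chvatal (hcore : Core n) (hn : 0 < n) (D : Finset (Finset (Fin n)))
    (hD : ∀ A ∈ D, ∀ B, B ⊆ A → B ∈ D) :
    ∃ i : Fin n, ∀ F ⊆ D, (∀ A ∈ F, ∀ B ∈ F, (A ∩ B).Nonempty) →
      F.card ≤ (D.filter (fun A => i ∈ A)).card := by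
  obtain ⟨i, hi⟩ := chvatal_fun hcore hn (fun A => if A ∈ D then 1 else 0)
    (fun A => by split_ifs <;> norm_num) (fun A B hAB => by
      show (if B ∈ D then (1 : ℝ) else 0) ≤ if A ∈ D then 1 else 0
      by_cases hB : B ∈ D
      · simp [hB, hD B hB A hAB]
      · simp only [hB, if_false]
        split_ifs <;> norm_num)
  refine ⟨i, fun F hFD hF => ?_⟩
  have h1 := hi F hF
  have h2 : ∑ A ∈ F, (if A ∈ D then (1 : ℝ) else 0) = F.card := by
    rw [Finset.sum_congr rfl (fun A hA => if_pos (hFD hA))]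
    simp
  have h3 : ∑ A ∈ univ.filter (fun A : Finset (Fin n) => i ∈ A), (if A ∈ D then (1 : ℝ) else 0) =
      ((D.filter (fun A => i ∈ A)).card : ℝ) := by
    rw [← Finset.sum_filter, Finset.filter_filter, Finset.sum_const, nsmul_eq_mul, mul_one]
    congr 2
    ext A
    simp [and_comm]
  rw [h2, h3] at h1
  exact_mod_cast h1

end Pool.Agent.H12.CH
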